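import Pool.Agent.Q77.KU.Asm
import Pool.Agent.Q77.KU.NULL
import Pool.Agent.Q77.KU.BACK
import Pool.Agent.Q77.KU.TAYL
import Pool.Agent.Q77.KU.GROW
import Pool.Agent.Q77.KU.CONV
import Pool.Agent.Q77.KU.STR
import Pool.Agent.Q77.KU.TRAP

/-!
# MP_d89e95_an: adding a universal vertex can destroy global synchronization

The homogeneous Kuramoto model on a finite graph `G` is `θ_i' = ∑_{j ~ i} sin (θ_j - θ_i)`. Let
`G` be the complete graph on 24 vertices with 10 pendant vertices attached at each vertex (264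
vertices). We show that `G` is globally synchronizing and that the graph obtained by adding a
universal vertex to `G` is not.
-/

set_option autoImplicit false

namespace Pool.Agent.Results.MP_d89e95_an.UniversalVertex

open Filter Topology MeasureTheory

/-- The right-hand side of the homogeneous Kuramoto model on the graph `G`: the `i`-th coordinate
is `∑_j A_ij sin (θ_j - θ_i)`, where `A` is the adjacency matrix of `G`. -/
noncomputable def field {V : Type} [Fintype V] (G : SimpleGraph V) (θ : V → ℝ) (i : V) : ℝ := by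
  classical exact ∑ j, if G.Adj i j then Real.sin (θ j - θ i) else 0

/-- `θ` is a solution of the homogeneous Kuramoto model on `G` for all times `t ≥ 0` (the
derivative at `t = 0` is one-sided). -/
def IsSolution {V : Type} [Fintype V] (G : SimpleGraph V) (θ : ℝ → V → ℝ) : Prop :=
  ∀ t, 0 ≤ t → ∀ i, HasDerivWithinAt (fun s => θ s i) (field G (θ t) i) (Set.Ici 0) t

/-- `G` is globally synchronizing: for all initial values `θ₀` outside a Lebesgue null set, all
phase differences of the solution starting at `θ₀` converge to `0` modulo `2π` (`Real.Angle` is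
the quotient `ℝ / 2πℤ`). -/
def GloballySynchronizing {V : Type} [Fintype V] (G : SimpleGraph V) : Prop :=
  ∀ᵐ θ₀ : V → ℝ, ∀ θ : ℝ → V → ℝ, IsSolution G θ → θ 0 = θ₀ →
    ∀ i j, Tendsto (fun t => ((θ t i - θ t j : ℝ) : Real.Angle)) atTop (𝓝 0)

/-- The graph `G + v` obtained from `G` by adding a universal vertex `v = none`. -/
def addUniversal {V : Type} (G : SimpleGraph V) : SimpleGraph (Option V) where
  Adj u w := match u, w with
    | none, none => False
    | none, some _ => True
    | some _, none => True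
    | some u, some w => G.Adj u w
  symm := ⟨by
    intro u w h
    cases u <;> cases w
    · exact h
    · trivial
    · trivial
    · exact SimpleGraph.Adj.symm (G := G) h⟩
  loopless := ⟨by
    intro u h
    cases u
    · exact h
    · exact G.loopless.irrefl _ h⟩

/-- The complete graph on `n` vertices with `l` pendant vertices attached at each vertex: `(i, none)`,
`i < n`, are the vertices of the complete graph, and `(i, some m)`, `m < l`, are the pendant
vertices at `(i, none)`. -/
def cliqueWithLeaves (n l : ℕ) : SimpleGraph (Fin n × Option (Fin l)) where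
  Adj u w := (u.1 = w.1 ∧ ((u.2 = none ∧ w.2 ≠ none) ∨ (u.2 ≠ none ∧ w.2 = none))) ∨
    (u.1 ≠ w.1 ∧ u.2 = none ∧ w.2 = none)
  symm := ⟨by
    intro u w h
    rcases h with ⟨h1, h2⟩ | ⟨h1, h2, h3⟩
    · refine Or.inl ⟨h1.symm, ?_⟩
      tauto
    · exact Or.inr ⟨h1.symm, h3, h2⟩⟩
  loopless := ⟨by
    intro u h
    rcases h with ⟨_, ⟨h1, h2⟩ | ⟨h1, h2⟩⟩ | ⟨h1, _⟩
    · exact h2 h1
    · exact h1 h2
    · exact h1 rfl⟩

open Pool.Agent.Q77.KU in
/-- the two formulations of the right-hand side -/
theorem field_eq {V : Type} [Fintype V] (G : SimpleGraph V) (a : V → V → ℝ)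
    (h1 : ∀ i j, G.Adj i j → a i j = 1) (h2 : ∀ i j, ¬ G.Adj i j → a i j = 0) (θ : V → ℝ) (i : V) :
    field G θ i = F a θ i := by
  classical
  unfold field F
  apply Finset.sum_congr rfl
  intro j _
  by_cases h : G.Adj i j
  · rw [if_pos h, h1 i j h, one_mul]
  · rw [if_neg h, h2 i j h, zero_mul]

open Pool.Agent.Q77.KU in
/-- the two formulations of solutions -/
theorem sol_iff {V : Type} [Fintype V] (G : SimpleGraph V) (a : V → V → ℝ)
    (h1 : ∀ i j, G.Adj i j → a i j = 1) (h2 : ∀ i j, ¬ G.Adj i j → a i j = 0) (θ : ℝ → V → ℝ) :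
    IsSolution G θ ↔ Sol a θ := by
  unfold IsSolution Sol
  simp only [field_eq G a h1 h2]

theorem adj_cor (n l : ℕ) (u w : Fin n × Option (Fin l)) :
    ((cliqueWithLeaves n l).Adj u w → Pool.Agent.Q77.KU.cor n l u w = 1) ∧
    (¬ (cliqueWithLeaves n l).Adj u w → Pool.Agent.Q77.KU.cor n l u w = 0) := by
  unfold Pool.Agent.Q77.KU.cor cliqueWithLeaves
  simp only
  by_cases h : u.1 = w.1
  · rw [if_pos h]
    constructor
    · rintro (⟨_, h2⟩ | ⟨h2, _⟩)
      · rw [if_pos h2]
      · exact absurd h h2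
    · intro h2
      rw [if_neg (fun h3 => h2 (Or.inl ⟨h, h3⟩))]
  · rw [if_neg h]
    constructor
    · rintro (⟨h2, _⟩ | ⟨_, h2⟩)
      · exact absurd h2 h
      · rw [if_pos h2]
    · intro h2
      rw [if_neg (fun h3 => h2 (Or.inr ⟨h, h3⟩))]

theorem adj_univ (n l : ℕ) (u w : Option (Fin n × Option (Fin l))) :
    ((addUniversal (cliqueWithLeaves n l)).Adj u w → Pool.Agent.Q77.KU.univ n l u w = 1) ∧
    (¬ (addUniversal (cliqueWithLeaves n l)).Adj u w → Pool.Agent.Q77.KU.univ n l u w = 0) := by
  cases u <;> cases w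
  · exact ⟨fun h => absurd h id, fun _ => rfl⟩
  · exact ⟨fun _ => rfl, fun h => absurd trivial h⟩
  · exact ⟨fun _ => rfl, fun h => absurd trivial h⟩
  · exact adj_cor n l _ _

open Pool.Agent.Q77.KU in
theorem core (h1 : S_CONV) (h2 : S_GROW) (h3 : S_NULL) (h4 : S_BACK) (h5 : S_EXI) (h6 : S_DEC)
    (h7 : S_KL) (h8 : S_STR) (h9 : S_TRAP) :
    (∀ n l : ℕ, GloballySynchronizing (cliqueWithLeaves n l)) ∧
    ¬ GloballySynchronizing (addUniversal (cliqueWithLeaves 24 10)) := by
  constructor
  · intro n l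
    obtain ⟨C, hC⟩ := h7 n l
    have hsym : ∀ i j, cor n l i j = cor n l j i := by
      intro i j
      by_cases h : (cliqueWithLeaves n l).Adj i j
      · rw [(adj_cor n l i j).1 h, (adj_cor n l j i).1 h.symm]
      · rw [(adj_cor n l i j).2 h, (adj_cor n l j i).2 (fun h' => h h'.symm)]
    have := gs h1 h2 h3 h4 (cor n l) hsym C hC (fun p hp hb => h8 n l p hp hb)
    unfold GloballySynchronizing
    filter_upwards [this] with z hz θ hθ
    exact hz θ ((sol_iff _ _ (fun i j => (adj_cor n l i j).1) (fun i j => (adj_cor n l i j).2) θ).1 hθ)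
  · intro hcon
    apply ngs h5 h6 h9
    unfold GloballySynchronizing at hcon
    filter_upwards [hcon] with z hz θ hθ
    exact hz θ ((sol_iff _ _ (fun i j => (adj_univ 24 10 i j).1)
      (fun i j => (adj_univ 24 10 i j).2) θ).2 hθ)

/-- For every graph and every initial value the model has a solution for all times `t ≥ 0`. -/
theorem exists_solution {V : Type} [Fintype V] (G : SimpleGraph V) (θ₀ : V → ℝ) :
    ∃ θ : ℝ → V → ℝ, IsSolution G θ ∧ θ 0 = θ₀ := by
  classical
  obtain ⟨θ, h1, h2⟩ := Pool.Agent.Q77.KU.PE.t_EXI V (fun i j => if G.Adj i j then 1 else 0) θ₀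
  exact ⟨θ, (sol_iff G _ (fun i j h => if_pos h) (fun i j h => if_neg h) θ).2 h1, h2⟩

/-- **A universal vertex can destroy global synchronization.** Every complete graph with `l`
pendant vertices attached at each vertex is globally synchronizing. But for the complete graph on
24 vertices with 10 pendant vertices attached at each vertex, the graph obtained by adding a
universal vertex is not globally synchronizing. -/
theorem result :
    (∀ n l : ℕ, GloballySynchronizing (cliqueWithLeaves n l)) ∧
    ¬ GloballySynchronizing (addUniversal (cliqueWithLeaves 24 10)) :=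
  core Pool.Agent.Q77.KU.PC.t_CONV
    (Pool.Agent.Q77.KU.PG.t_GROW Pool.Agent.Q77.KU.PL.t_LINA Pool.Agent.Q77.KU.PT.t_TAYL)
    Pool.Agent.Q77.KU.PN.t_NULL Pool.Agent.Q77.KU.PB.t_BACK Pool.Agent.Q77.KU.PE.t_EXI
    Pool.Agent.Q77.KU.PD.t_DEC Pool.Agent.Q77.KU.PK.t_KL Pool.Agent.Q77.KU.PK.t_STR
    (Pool.Agent.Q77.KU.PK.t_TRAP Pool.Agent.Q77.KU.PK.t_RED Pool.Agent.Q77.KU.PX.t_CVX)

end Pool.Agent.Results.MP_d89e95_an.UniversalVertex
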